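import Pool.Agent.H.MP_1664c7_al.Main

set_option maxHeartbeats 400000

namespace Pool.Agent.H.MP_702bfb_al

open Pool.Agent.H.MP_b27eb5_al Pool.Agent.H.MP_1664c7_al

/-- Hurwitz series over the field with two elements -/
abbrev O : Type := Hz (ZMod 2)

theorem two : (2 : O) = 0 := by
  have h : (2 : ZMod 2) = 0 := rfl
  have : (2 : O) = algebraMap (ZMod 2) O 2 := by rw [map_ofNat]
  rw [this, h, map_zero]

theorem sq (c : O) : J c * J c = 0 := by
  apply eq_zero_of
  · simp [mul0, J0]
  · simp only [D_mul, DJ]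
    linear_combination (J c * c) * two

/-- iterated squares of the derivation -/
def dl (k : ℕ) (u : O) : O := D^[2 ^ k] u

theorem dl_succ (k : ℕ) (u : O) : dl (k + 1) u = dl k (dl k u) := by
  simp only [dl]
  rw [← Function.iterate_add_apply]
  congr 1
  ring

theorem it_add (n : ℕ) (u v : O) : D^[n] (u + v) = D^[n] u + D^[n] v := by
  induction n with
  | zero => rfl
  | succ n ih => simp only [Function.iterate_succ_apply', ih, map_add]

theorem it_zero (n : ℕ) : D^[n] (0 : O) = 0 := Function.iterate_fixed (map_zero D) n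

theorem dl_add (k : ℕ) (u v : O) : dl k (u + v) = dl k u + dl k v := it_add _ u v

theorem dl_mul (k : ℕ) : ∀ u v : O, dl k (u * v) = dl k u * v + u * dl k v := by
  induction k with
  | zero => intro u v; exact D_mul u v
  | succ k ih =>
    intro u v
    simp only [dl_succ, ih, dl_add]
    linear_combination (dl k u * dl k v) * two

/-- divided powers -/
def xx (n : ℕ) : O := J^[n] 1

theorem D_xx (n m : ℕ) : D^[n] (xx (n + m)) = xx m := by
  induction n with
  | zero => simp
  | succ n ih =>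
    rw [Function.iterate_succ_apply, show n + 1 + m = (n + m) + 1 by ring, xx,
      Function.iterate_succ_apply', DJ]
    exact ih

theorem D_xx_lt {n m : ℕ} (h : m < n) : D^[n] (xx m) = 0 := by
  obtain ⟨t, rfl⟩ : ∃ t, n = t + 1 + m := ⟨n - m - 1, by omega⟩
  rw [Function.iterate_add_apply]
  have := D_xx m 0
  rw [add_zero] at this
  rw [this, Function.iterate_succ_apply]
  exact it_zero t

/-- products of generators -/
def Q (m l : ℕ) : O := ∏ i ∈ Finset.range l, xx (2 ^ (m + i))

theorem dl_Q (k : ℕ) : ∀ l ≤ k, dl k (Q 0 l) = 0 := by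
  intro l
  induction l with
  | zero =>
    intro _
    exact D_xx_lt (m := 0) (Nat.two_pow_pos k)
  | succ l ih =>
    intro h
    have e : Q 0 (l + 1) = Q 0 l * xx (2 ^ l) := by simp [Q, Finset.prod_range_succ]
    have e2 : dl k (xx (2 ^ l)) = 0 := D_xx_lt (Nat.pow_lt_pow_right (by norm_num) h)
    rw [e, dl_mul, ih (by omega), e2]
    simp

theorem Q_ne (l : ℕ) : Q 0 l ≠ 0 := by
  induction l with
  | zero => exact one_ne
  | succ l ih =>
    intro h
    have e : Q 0 (l + 1) = Q 0 l * xx (2 ^ l) := by simp [Q, Finset.prod_range_succ]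
    have e2 : dl l (xx (2 ^ l)) = 1 := D_xx (2 ^ l) 0
    have e3 := dl_mul l (Q 0 l) (xx (2 ^ l))
    rw [← e, h, dl_Q l l le_rfl, e2] at e3
    apply ih
    have e4 : dl l 0 = 0 := it_zero _
    rw [e4] at e3
    simpa using e3.symm

theorem Q_add (m l l' : ℕ) : Q m (l + l') = Q m l * Q (m + l) l' := by
  simp [Q, Finset.prod_range_add, add_assoc]

/-- the underlying space -/
abbrev W : Type := O × O × O × O

/-- the product -/
def pr (x y : W) : W :=
  (x.1 * y.2.1 + x.2.1 * y.1, x.2.1 * y.2.1 + x.1 * J y.2.2.1,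
    x.2.1 * y.2.2.1 + x.2.2.1 * y.2.1 + x.1 * y.2.2.2 + x.2.2.2 * y.1,
    x.2.1 * y.2.2.2 + x.2.2.2 * y.2.1 + x.2.2.1 * J y.2.2.1)

/-- the product as a bilinear map -/
def mm : W →ₗ[ZMod 2] W →ₗ[ZMod 2] W :=
  LinearMap.mk₂ (ZMod 2) pr
    (fun x x' y => by ext <;> simp [pr] <;> ring)
    (fun r x y => by ext <;> simp [pr, smul_add])
    (fun x y y' => by ext <;> simp [pr] <;> ring)
    (fun r x y => by ext <;> simp [pr, smul_add])

theorem pr_sq (u V w U : O) (hV : V * V = 0) :
    pr (u, V, w, U) (u, V, w, U) = (0, u * J w, 0, w * J w) := by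
  ext <;> simp only [pr]
  · linear_combination (u * V) * two
  · linear_combination hV
  · linear_combination (V * w + u * U) * two
  · linear_combination (V * U) * two

theorem ralt (x y : W) (hy : y.2.1 * y.2.1 = 0) : pr (pr x y) y = pr x (pr y y) := by
  obtain ⟨p, P, q, T⟩ := x
  obtain ⟨u, V, w, U⟩ := y
  rw [pr_sq _ _ _ _ hy]
  simp only at hy
  ext <;> simp only [pr, map_zero]
  · linear_combination p * hy + (P * u * V) * two
  · linear_combination P * hy + (p * V * J w) * two
  · linear_combination q * hy + (P * V * w + p * U * V + T * u * V + P * u * U) * two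
  · linear_combination T * hy + (P * V * U + p * J w * U + q * V * J w) * two

theorem nil4 (y : W) (hy : y.2.1 * y.2.1 = 0) : pr (pr (pr y y) y) y = 0 := by
  rw [ralt _ _ hy]
  obtain ⟨u, V, w, U⟩ := y
  rw [pr_sq _ _ _ _ hy]
  have h := sq w
  ext <;> simp only [pr, map_zero, Prod.fst_zero, Prod.snd_zero]
  · ring
  · linear_combination (u * u) * h
  · ring
  · linear_combination (u * w * 2) * h

theorem mouf (x y z : W) (hy : y.2.1 * y.2.1 = 0) :
    pr (pr (pr x y) z) y = pr x (pr (pr y z) y) := by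
  obtain ⟨p, P, q, T⟩ := x
  obtain ⟨u, V, w, U⟩ := y
  obtain ⟨u', V', w', U'⟩ := z
  simp only at hy
  have h := sq w
  have e : pr (pr (u, V, w, U) (u', V', w', U')) (u, V, w, U) =
      (u * u * J w', u * V * J w' + (u * V' + V * u') * J w, 0,
        u * U * J w' + w * V * J w' + (V * w' + w * V' + u * U' + U * u') * J w) := by
    ext <;> simp only [pr]
    · linear_combination u' * hy + (u * V * V') * two
    · linear_combination V' * hy
    · linear_combination w' * hy
        + (V * V' * w + u * J w' * w + u * U' * V + U * u' * V + u * V' * U) * two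
    · linear_combination U' * hy + (V * V' * U) * two
  rw [e]
  ext <;> simp only [pr, map_zero]
  · linear_combination (V' * p + P * u') * hy + (P * V * V' * u) * two
  · linear_combination (P * V' + J w' * p) * hy + (p * u') * h + (J w * V * V' * p) * two
  · linear_combination (P * w' + V' * q + U' * p + T * u') * hy + (P * V * V' * w + J w' * P *
      u * w + U * V * V' * p + T * V * V' * u + P * U' * V * u + P * U * V * u' + P * U * V' *
      u) * two
  · linear_combination (P * U' + T * V' + J w' * q) * hy + (p * w' + q * u') * h + (P * U * V *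
      V' + J w * U * V' * p + J w' * U * V * p + J w * U' * V * p + J w * V * V' * q) * two

/-- the big algebra -/
abbrev B : Type := Alg mm

/-- first generator -/
def ga : B := toA mm ((0, 0, 1, 0) : W)

/-- second generator -/
def gb : B := toA mm ((1, 0, 0, 0) : W)

/-- the middle part -/
def cc (V : O) : B := toA mm ((0, V, 0, 0) : W)

/-- the finitely generated ring -/
def S : NonUnitalSubring B := NonUnitalSubring.closure {ga, gb}

theorem ga_mem : ga ∈ S := NonUnitalSubring.subset_closure (by simp)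
theorem gb_mem : gb ∈ S := NonUnitalSubring.subset_closure (by simp)

/-- the second coordinate -/
def c2 (y : B) : O := ((toA mm).symm y).2.1

theorem sq_mem {y : B} (hy : y ∈ S) : c2 y * c2 y = 0 := by
  induction hy using NonUnitalSubring.closure_induction with
  | mem x hx =>
    rcases hx with rfl | rfl
    · exact mul_zero (0 : O)
    · exact mul_zero (0 : O)
  | zero => exact mul_zero (0 : O)
  | add a b _ _ ha hb =>
    have : c2 (a + b) = c2 a + c2 b := rfl
    rw [this]
    linear_combination ha + hb + (c2 a * c2 b) * two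
  | neg a _ ha =>
    have : c2 (-a) = -c2 a := rfl
    rw [this]
    linear_combination ha
  | mul a b _ _ ha hb =>
    have : c2 (a * b) = c2 a * c2 b + ((toA mm).symm a).1 * J ((toA mm).symm b).2.2.1 := rfl
    rw [this]
    have h := sq ((toA mm).symm b).2.2.1
    generalize J ((toA mm).symm b).2.2.1 = s at h
    generalize ((toA mm).symm a).1 = t
    linear_combination (c2 b * c2 b) * ha + (t * t) * h + (c2 a * c2 b * t * s) * two

theorem cc_mul (V V' : O) : cc V * cc V' = cc (V * V') := by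
  refine congrArg (toA mm) (?_ : pr (0, V, 0, 0) (0, V', 0, 0) = (0, V * V', 0, 0))
  ext <;> simp [pr]

theorem cc_J (V : O) : gb * (ga * cc V) = cc (J V) := by
  refine congrArg (toA mm)
    (?_ : pr (1, 0, 0, 0) (pr (0, 0, 1, 0) (0, V, 0, 0)) = (0, J V, 0, 0))
  ext <;> simp [pr]

theorem cc_one : gb * ga = cc (J 1) := by
  refine congrArg (toA mm) (?_ : pr (1, 0, 0, 0) (0, 0, 1, 0) = (0, J 1, 0, 0))
  ext <;> simp [pr]

theorem xx_mem (n : ℕ) : cc (xx (n + 1)) ∈ S := by
  induction n with
  | zero => exact cc_one ▸ S.mul_mem gb_mem ga_mem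
  | succ n ih =>
    rw [xx, Function.iterate_succ_apply', ← cc_J]
    exact S.mul_mem gb_mem (S.mul_mem ga_mem ih)

theorem fg : ∃ s : Finset S, NonUnitalSubring.closure (s : Set S) = ⊤ := by
  classical
  refine ⟨{⟨ga, ga_mem⟩, ⟨gb, gb_mem⟩}, ?_⟩
  rw [eq_top_iff]
  rintro ⟨y, hy⟩ -
  induction hy using NonUnitalSubring.closure_induction with
  | mem x hx =>
    apply NonUnitalSubring.subset_closure
    rcases hx with rfl | rfl <;> simp
  | zero => exact zero_mem _
  | add a b _ _ ha hb => exact add_mem ha hb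
  | neg a _ ha => exact neg_mem ha
  | mul a b _ _ ha hb => exact mul_mem ha hb

theorem der (Dd : ℕ → AddSubgroup S) (h0 : Dd 0 = ⊤)
    (hs : ∀ k : ℕ, Dd (k + 1) = AddSubgroup.closure {z : S | ∃ a ∈ Dd k, ∃ b ∈ Dd k, z = a * b})
    (k : ℕ) : ∀ m : ℕ, ∃ y ∈ Dd k, (y : B) = cc (Q m (2 ^ k)) := by
  induction k with
  | zero =>
    intro m
    obtain ⟨n, hn⟩ : ∃ n, 2 ^ m = n + 1 := ⟨2 ^ m - 1, by have := Nat.two_pow_pos m; omega⟩
    refine ⟨⟨_, xx_mem n⟩, by rw [h0]; trivial, ?_⟩
    simp [Q, hn]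
  | succ k ih =>
    intro m
    obtain ⟨y, hy, e⟩ := ih m
    obtain ⟨y', hy', e'⟩ := ih (m + 2 ^ k)
    refine ⟨y * y', ?_, ?_⟩
    · rw [hs]
      exact AddSubgroup.subset_closure ⟨y, hy, y', hy', rfl⟩
    · rw [show 2 ^ (k + 1) = 2 ^ k + 2 ^ k by ring, Q_add, ← cc_mul, ← e, ← e']
      rfl

theorem main : ∃ (R : Type) (_ : NonUnitalNonAssocRing R),
    (∀ x y : R, (x * y) * y = x * (y * y)) ∧
    (∀ x y z : R, ((x * y) * z) * y = x * ((y * z) * y)) ∧
    (∃ s : Finset R, NonUnitalSubring.closure (s : Set R) = ⊤) ∧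
    (∀ x : R, x * x * x * x = 0) ∧
    ∀ Dd : ℕ → AddSubgroup R, Dd 0 = ⊤ →
      (∀ k : ℕ, Dd (k + 1) =
        AddSubgroup.closure {z : R | ∃ a ∈ Dd k, ∃ b ∈ Dd k, z = a * b}) →
      ∀ m : ℕ, Dd m ≠ ⊥ := by
  refine ⟨S, inferInstance, fun x y => Subtype.ext (ralt x.1 y.1 (sq_mem y.2)),
    fun x y z => Subtype.ext (mouf x.1 y.1 z.1 (sq_mem y.2)), fg,
    fun x => Subtype.ext (nil4 x.1 (sq_mem x.2)), fun Dd h0 hs m hm => ?_⟩
  obtain ⟨y, hy, e⟩ := der Dd h0 hs m 0
  rw [hm, AddSubgroup.mem_bot] at hy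
  rw [hy] at e
  exact Q_ne _ (congrArg c2 e).symm

end Pool.Agent.H.MP_702bfb_al
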